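import Mathlib

/-! # MP_9437d9_an, Q1: root subspaces of stably bounded quaternion systems are definite

For quaternion systems `A_ℓ x^(ℓ) + ... + A_1 x' + A_0 x = 0` with `A_k` hermitian for odd `k`,
skewhermitian for even `k` and `A_ℓ` invertible: if the system is stably bounded, then every root
subspace of its companion matrix `C` is `G`-positive or `G`-negative. The answer to Q1 is yes.

Proof. Let `λ` be purely imaginary and let `x ≠ 0` satisfy `Σ A_k x λ ^ k = 0`, with a neutral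
eigenvector `(x, x λ, x λ ^ 2, ...)` of `C`. Put `r (δ) = Σ A_k x (λ + δ) ^ k` for small real `δ`.
The derivative at `0` of the real part of `x* r (δ)` is the value of `G` at the eigenvector, that
is, zero. So there are a hermitian `H = h x x*`, `h = o(1)`, and a skewhermitian `S = o(1)` with
`r (δ) + S x + H x (λ + δ) = 0`, and the system with `A_0 + S`, `A_1 + H` has the unbounded solution
`x exp (t (λ + δ))`. (If `ℓ = 1`, then `H = 0`.) Hence there are no neutral eigenvectors, by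
continuity the form has a constant sign on the eigenvectors of `λ`, hence on the kernel of
`C ^ 2 + |λ| ^ 2`, and a definite form on this kernel excludes longer root vectors. -/

set_option linter.unusedSectionVars false

open Quaternion Matrix Finset

namespace Pool.Agent.Results.MP_9437d9_an.StablyBounded

/-- The coefficients are admissible: `A k` is hermitian for odd `k` and skewhermitian for even `k`
(`k ≤ ℓ`), and the leading coefficient `A ℓ` is invertible. -/
structure Admissible {n : ℕ} (ℓ : ℕ) (A : ℕ → Matrix (Fin n) (Fin n) ℍ[ℝ]) : Prop where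
  odd : ∀ k, k ≤ ℓ → Odd k → (A k)ᴴ = A k
  even : ∀ k, k ≤ ℓ → Even k → (A k)ᴴ = -A k
  inv : IsUnit (A ℓ)

/-- `x` is an `ℓ` times continuously differentiable solution of
`A_ℓ x^(ℓ) + ... + A_1 x' + A_0 x = 0` on the real line. -/
def IsSolution {n : ℕ} (ℓ : ℕ) (A : ℕ → Matrix (Fin n) (Fin n) ℍ[ℝ])
    (x : ℝ → Fin n → ℍ[ℝ]) : Prop :=
  ContDiff ℝ ℓ x ∧ ∀ t, ∑ k ∈ range (ℓ + 1), A k *ᵥ iteratedDeriv k x t = 0

/-- The system is bounded: every solution is bounded on the real line. -/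
def IsBounded {n : ℕ} (ℓ : ℕ) (A : ℕ → Matrix (Fin n) (Fin n) ℍ[ℝ]) : Prop :=
  ∀ x : ℝ → Fin n → ℍ[ℝ], IsSolution ℓ A x → ∃ M : ℝ, ∀ t, ‖x t‖ ≤ M

/-- The system is stably bounded: all admissible systems with coefficients close enough (in the
norm of the largest entry) are bounded. -/
def IsStablyBounded {n : ℕ} (ℓ : ℕ) (A : ℕ → Matrix (Fin n) (Fin n) ℍ[ℝ]) : Prop :=
  ∃ ε : ℝ, 0 < ε ∧ ∀ A' : ℕ → Matrix (Fin n) (Fin n) ℍ[ℝ], Admissible ℓ A' →
    (∀ k, k ≤ ℓ → ∀ i j, ‖A' k i j - A k i j‖ < ε) → IsBounded ℓ A'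

/-- The block companion matrix `C`, with blocks numbered from `0`. -/
noncomputable def companion {n : ℕ} (ℓ : ℕ) (A : ℕ → Matrix (Fin n) (Fin n) ℍ[ℝ]) :
    Matrix (Fin ℓ × Fin n) (Fin ℓ × Fin n) ℍ[ℝ] :=
  Matrix.of fun p q =>
    if (p.1 : ℕ) + 1 < ℓ then (if (q.1 : ℕ) = (p.1 : ℕ) + 1 ∧ q.2 = p.2 then 1 else 0)
    else -(Ring.inverse (A ℓ) * A q.1) p.2 q.2

/-- The hermitian matrix `G`, with blocks numbered from `0`: the block `(i, j)` is
`(-1) ^ i A_(i+j+1)` if `i + j + 1 ≤ ℓ`, and zero otherwise. -/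
noncomputable def gram {n : ℕ} (ℓ : ℕ) (A : ℕ → Matrix (Fin n) (Fin n) ℍ[ℝ]) :
    Matrix (Fin ℓ × Fin n) (Fin ℓ × Fin n) ℍ[ℝ] :=
  Matrix.of fun p q =>
    if (p.1 : ℕ) + (q.1 : ℕ) + 1 ≤ ℓ then
      (-1) ^ (p.1 : ℕ) * A ((p.1 : ℕ) + (q.1 : ℕ) + 1) p.2 q.2 else 0

/-- `lam` is a (right) eigenvalue of `C`. -/
def IsEigenvalue {ι : Type} [Fintype ι] (C : Matrix ι ι ℍ[ℝ]) (lam : ℍ[ℝ]) : Prop :=
  ∃ u : ι → ℍ[ℝ], u ≠ 0 ∧ C *ᵥ u = fun p => u p * lam

/-- The root subspace of `C` at `lam`, with exponent `N` (the size of the matrix). -/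
def rootSubspace {ι : Type} [Fintype ι] [DecidableEq ι] (N : ℕ) (C : Matrix ι ι ℍ[ℝ])
    (lam : ℍ[ℝ]) : Set (ι → ℍ[ℝ]) :=
  {u | (lam.im = 0 → (C - lam.re • (1 : Matrix ι ι ℍ[ℝ])) ^ N *ᵥ u = 0) ∧
    (lam.im ≠ 0 →
      (C ^ 2 - (2 * lam.re) • C + (‖lam‖ ^ 2) • (1 : Matrix ι ι ℍ[ℝ])) ^ N *ᵥ u = 0)}

/-- The set `M` is `G`-positive: `u* G u` is a positive real number for all nonzero `u` in `M`. -/
def GPositive {ι : Type} [Fintype ι] (G : Matrix ι ι ℍ[ℝ]) (M : Set (ι → ℍ[ℝ])) : Prop :=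
  ∀ u ∈ M, u ≠ 0 → ∃ r : ℝ, 0 < r ∧ star u ⬝ᵥ (G *ᵥ u) = (r : ℍ[ℝ])

/-- The set `M` is `G`-negative: `u* G u` is a negative real number for all nonzero `u` in `M`. -/
def GNegative {ι : Type} [Fintype ι] (G : Matrix ι ι ℍ[ℝ]) (M : Set (ι → ℍ[ℝ])) : Prop :=
  ∀ u ∈ M, u ≠ 0 → ∃ r : ℝ, r < 0 ∧ star u ⬝ᵥ (G *ᵥ u) = (r : ℍ[ℝ])

/-! ### Exponential solutions -/

section exp

variable {n : ℕ}

/-- The exponential function with values in the quaternions. -/
noncomputable def ex (mu : ℍ[ℝ]) (t : ℝ) : ℍ[ℝ] := NormedSpace.exp (t • mu)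

lemma ex_deriv (mu : ℍ[ℝ]) (t : ℝ) : HasDerivAt (ex mu) (ex mu t * mu) t := by
  unfold ex
  exact hasDerivAt_exp_smul_const mu t

lemma ex_norm (mu : ℍ[ℝ]) (t : ℝ) : ‖ex mu t‖ = Real.exp (t * mu.re) := by
  unfold ex
  rw [Quaternion.norm_exp, Quaternion.re_smul, smul_eq_mul, ← Real.exp_eq_exp_ℝ,
    Real.norm_eq_abs, abs_of_pos (Real.exp_pos _)]

noncomputable def sol (x : Fin n → ℍ[ℝ]) (mu : ℍ[ℝ]) (k : ℕ) (t : ℝ) : Fin n → ℍ[ℝ] :=
  fun a => x a * (ex mu t * mu ^ k)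

lemma sol_deriv (x : Fin n → ℍ[ℝ]) (mu : ℍ[ℝ]) (k : ℕ) (t : ℝ) :
    HasDerivAt (sol x mu k) (sol x mu (k + 1) t) t := by
  rw [hasDerivAt_pi]
  intro a
  have h := ((ex_deriv mu t).mul_const (mu ^ k)).const_mul (x a)
  refine HasDerivAt.congr_deriv h ?_
  simp only [sol]
  rw [pow_succ', mul_assoc (ex mu t)]

lemma sol_iter (x : Fin n → ℍ[ℝ]) (mu : ℍ[ℝ]) (k : ℕ) :
    iteratedDeriv k (sol x mu 0) = sol x mu k := by
  induction k with
  | zero => simp
  | succ k ih =>
    rw [iteratedDeriv_succ, ih]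
    funext t
    exact (sol_deriv x mu k t).deriv

lemma sol_isSol (ℓ : ℕ) (A : ℕ → Matrix (Fin n) (Fin n) ℍ[ℝ]) (x : Fin n → ℍ[ℝ]) (mu : ℍ[ℝ])
    (h : ∀ a, ∑ k ∈ range (ℓ + 1), (A k *ᵥ x) a * mu ^ k = 0) :
    IsSolution ℓ A (sol x mu 0) := by
  refine ⟨?_, ?_⟩
  · apply contDiff_of_differentiable_iteratedDeriv
    intro m _
    rw [sol_iter]
    exact fun t => (sol_deriv x mu m t).differentiableAt
  · intro t
    funext a
    simp only [Finset.sum_apply, sol_iter, Pi.zero_apply]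
    have hc : ∀ k, ex mu t * mu ^ k = mu ^ k * ex mu t := by
      intro k
      have h1 : Commute (ex mu t) mu := by
        unfold ex
        exact (Commute.exp_left ((Commute.refl mu).smul_left t))
      exact (h1.pow_right k).eq
    have h1 : ∀ k, (A k *ᵥ sol x mu k t) a = (A k *ᵥ x) a * mu ^ k * ex mu t := by
      intro k
      simp only [sol, Matrix.mulVec, dotProduct, Finset.sum_mul]
      refine Finset.sum_congr rfl fun b _ => ?_
      rw [hc]; simp only [mul_assoc]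
    simp only [h1, ← Finset.sum_mul, h a, zero_mul]

/-- An exponential solution with exponent off the imaginary axis is unbounded. -/
lemma sol_unbounded (ℓ : ℕ) (A : ℕ → Matrix (Fin n) (Fin n) ℍ[ℝ]) (x : Fin n → ℍ[ℝ]) (mu : ℍ[ℝ])
    (hx : x ≠ 0) (hmu : mu.re ≠ 0)
    (h : ∀ a, ∑ k ∈ range (ℓ + 1), (A k *ᵥ x) a * mu ^ k = 0) : ¬ IsBounded ℓ A := by
  intro hb
  obtain ⟨M, hM⟩ := hb _ (sol_isSol ℓ A x mu h)
  obtain ⟨a, ha⟩ := Function.ne_iff.1 hx
  have ha' : 0 < ‖x a‖ := norm_pos_iff.2 ha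
  have h1 : ∀ t, ‖x a‖ * Real.exp (t * mu.re) ≤ M := by
    intro t
    have h2 := (norm_le_pi_norm (sol x mu 0 t) a).trans (hM t)
    simpa [sol, norm_mul, ex_norm] using h2
  have h3 := h1 ((M / ‖x a‖) / mu.re)
  rw [div_mul_cancel₀ _ hmu] at h3
  have h4 : M / ‖x a‖ + 1 ≤ Real.exp (M / ‖x a‖) := Real.add_one_le_exp _
  have h5 := mul_le_mul_of_nonneg_left h4 ha'.le
  have h6 : ‖x a‖ * (M / ‖x a‖ + 1) = M + ‖x a‖ := by field_simp
  linarith

end exp

/-! ### The hermitian form -/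

section form

variable {ι : Type} [Fintype ι]

/-- The form `u* M v`. -/
noncomputable def fm (M : Matrix ι ι ℍ[ℝ]) (u v : ι → ℍ[ℝ]) : ℍ[ℝ] := star u ⬝ᵥ (M *ᵥ v)

/-- Multiplication by a scalar from the right. -/
noncomputable def rs (u : ι → ℍ[ℝ]) (q : ℍ[ℝ]) : ι → ℍ[ℝ] := fun p => u p * q

lemma mulVec_rs (M : Matrix ι ι ℍ[ℝ]) (u : ι → ℍ[ℝ]) (q : ℍ[ℝ]) :
    M *ᵥ (rs u q) = rs (M *ᵥ u) q := by
  funext p
  simp only [rs, Matrix.mulVec, dotProduct, Finset.sum_mul, mul_assoc]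

lemma fm_rs_right (M : Matrix ι ι ℍ[ℝ]) (u v : ι → ℍ[ℝ]) (q : ℍ[ℝ]) :
    fm M u (rs v q) = fm M u v * q := by
  unfold fm
  rw [mulVec_rs]
  simp only [rs, dotProduct, Finset.sum_mul, mul_assoc]

lemma fm_rs_left (M : Matrix ι ι ℍ[ℝ]) (u v : ι → ℍ[ℝ]) (q : ℍ[ℝ]) :
    fm M (rs u q) v = star q * fm M u v := by
  unfold fm
  simp only [rs, dotProduct, Finset.mul_sum, Pi.star_apply, star_mul, mul_assoc]

lemma fm_add_left (M : Matrix ι ι ℍ[ℝ]) (u v w : ι → ℍ[ℝ]) :
    fm M (u + v) w = fm M u w + fm M v w := by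
  unfold fm
  rw [star_add, add_dotProduct]

lemma fm_add_right (M : Matrix ι ι ℍ[ℝ]) (u v w : ι → ℍ[ℝ]) :
    fm M u (v + w) = fm M u v + fm M u w := by
  unfold fm
  rw [mulVec_add, dotProduct_add]

lemma fm_star (M : Matrix ι ι ℍ[ℝ]) (u v : ι → ℍ[ℝ]) : star (fm M u v) = fm Mᴴ v u := by
  unfold fm
  rw [← Matrix.star_dotProduct_star, star_star, Matrix.star_mulVec, ← Matrix.dotProduct_mulVec]

lemma fm_mulVec_right (M N : Matrix ι ι ℍ[ℝ]) (u v : ι → ℍ[ℝ]) :
    fm M u (N *ᵥ v) = fm (M * N) u v := by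
  unfold fm
  rw [Matrix.mulVec_mulVec]

lemma fm_mulVec_left (M N : Matrix ι ι ℍ[ℝ]) (u v : ι → ℍ[ℝ]) :
    fm M (N *ᵥ u) v = fm (Nᴴ * M) u v := by
  unfold fm
  rw [Matrix.star_mulVec, ← Matrix.dotProduct_mulVec, Matrix.mulVec_mulVec]

end form

/-! ### The matrices `C` and `G` -/

section CG

variable {n : ℕ}

lemma gram_herm {ℓ : ℕ} {A : ℕ → Matrix (Fin n) (Fin n) ℍ[ℝ]} (hA : Admissible ℓ A) :
    (gram ℓ A)ᴴ = gram ℓ A := by
  ext1 p q
  simp only [gram, Matrix.conjTranspose_apply, Matrix.of_apply]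
  by_cases h : (p.1 : ℕ) + (q.1 : ℕ) + 1 ≤ ℓ
  · have h' : (q.1 : ℕ) + (p.1 : ℕ) + 1 ≤ ℓ := by omega
    rw [if_pos h, if_pos h']
    have e : (q.1 : ℕ) + (p.1 : ℕ) + 1 = (p.1 : ℕ) + (q.1 : ℕ) + 1 := by omega
    rw [e, star_mul, star_pow, star_neg, star_one]
    rcases Nat.even_or_odd ((p.1 : ℕ) + (q.1 : ℕ)) with he | ho
    · have h1 := hA.odd _ h he.add_one
      have h2 : star (A ((p.1 : ℕ) + (q.1 : ℕ) + 1) q.2 p.2)
          = A ((p.1 : ℕ) + (q.1 : ℕ) + 1) p.2 q.2 := by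
        rw [← Matrix.conjTranspose_apply, h1]
      rw [h2]
      have h3 : ((-1 : ℍ[ℝ])) ^ (q.1 : ℕ) = (-1) ^ (p.1 : ℕ) := by
        rcases Nat.even_or_odd (p.1 : ℕ) with hp | hp
        · have hq : Even (q.1 : ℕ) := (Nat.even_add.1 he).1 hp
          rw [hp.neg_one_pow, hq.neg_one_pow]
        · have hq : Odd (q.1 : ℕ) := by
            rw [← Nat.not_even_iff_odd] at hp ⊢
            exact fun hh => hp ((Nat.even_add.1 he).2 hh)
          rw [hp.neg_one_pow, hq.neg_one_pow]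
      rw [h3]
      rcases neg_one_pow_eq_or ℍ[ℝ] (p.1 : ℕ) with hh | hh <;> rw [hh] <;> simp
    · have h1 := hA.even _ h ho.add_one
      have h2 : star (A ((p.1 : ℕ) + (q.1 : ℕ) + 1) q.2 p.2)
          = - A ((p.1 : ℕ) + (q.1 : ℕ) + 1) p.2 q.2 := by
        rw [← Matrix.conjTranspose_apply, h1, Matrix.neg_apply]
      rw [h2]
      have h3 : ((-1 : ℍ[ℝ])) ^ (q.1 : ℕ) = - (-1) ^ (p.1 : ℕ) := by
        rcases Nat.even_or_odd (p.1 : ℕ) with hp | hp
        · have hq : Odd (q.1 : ℕ) := by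
            rw [← Nat.not_even_iff_odd] at ho ⊢
            exact fun hh => ho ((Nat.even_add).2 ⟨fun _ => hh, fun _ => hp⟩)
          rw [hp.neg_one_pow, hq.neg_one_pow]
        · have hq : Even (q.1 : ℕ) := by
            by_contra hh
            rw [← Nat.not_even_iff_odd] at ho hp
            exact ho ((Nat.even_add).2 ⟨fun h => absurd h hp, fun h => absurd h hh⟩)
          rw [hp.neg_one_pow, hq.neg_one_pow]; simp
      rw [h3]
      rcases neg_one_pow_eq_or ℍ[ℝ] (p.1 : ℕ) with hh | hh <;> rw [hh] <;> simp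
  · have h' : ¬ (q.1 : ℕ) + (p.1 : ℕ) + 1 ≤ ℓ := by omega
    rw [if_neg h, if_neg h', star_zero]

/-- The entries of `G C`. -/
lemma gram_mul_companion (m : ℕ) {A : ℕ → Matrix (Fin n) (Fin n) ℍ[ℝ]}
    (hA : IsUnit (A (m + 1))) (p q : Fin (m + 1) × Fin n) :
    (gram (m + 1) A * companion (m + 1) A) p q =
      if (p.1 : ℕ) = 0 then (if (q.1 : ℕ) = 0 then - A 0 p.2 q.2 else 0)
      else (if (q.1 : ℕ) = 0 then 0 else
        (if (p.1 : ℕ) + (q.1 : ℕ) ≤ m + 1 then
          (-1) ^ (p.1 : ℕ) * A ((p.1 : ℕ) + (q.1 : ℕ)) p.2 q.2 else 0)) := by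
  rw [Matrix.mul_apply, Fintype.sum_prod_type, Fin.sum_univ_castSucc]
  have hlast : ∑ b, gram (m + 1) A p (Fin.last m, b) * companion (m + 1) A (Fin.last m, b) q =
      if (p.1 : ℕ) = 0 then - A q.1 p.2 q.2 else 0 := by
    simp only [gram, companion, Matrix.of_apply, Fin.val_last, lt_irrefl, if_false]
    by_cases hp : (p.1 : ℕ) = 0
    · rw [if_pos hp, hp]
      simp only [Nat.zero_add, le_refl, if_true, pow_zero, one_mul, mul_neg, Finset.sum_neg_distrib]
      have h1 : ∑ b, A (m + 1) p.2 b * (Ring.inverse (A (m + 1)) * A q.1) b q.2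
          = (A (m + 1) * (Ring.inverse (A (m + 1)) * A q.1)) p.2 q.2 := by
        rw [Matrix.mul_apply]
      rw [h1, ← mul_assoc, Ring.mul_inverse_cancel _ hA, one_mul]
    · rw [if_neg hp]
      refine Finset.sum_eq_zero fun b _ => ?_
      rw [if_neg (by omega), zero_mul]
  rw [hlast]
  have hfirst : ∑ i : Fin m, ∑ b, gram (m + 1) A p (i.castSucc, b) *
      companion (m + 1) A (i.castSucc, b) q =
      if (q.1 : ℕ) = 0 then 0 else gram (m + 1) A p (⟨(q.1 : ℕ) - 1, by omega⟩, q.2) := by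
    have h1 : ∀ (i : Fin m) b, companion (m + 1) A (i.castSucc, b) q =
        if (q.1 : ℕ) = (i : ℕ) + 1 ∧ q.2 = b then 1 else 0 := by
      intro i b
      simp only [companion, Matrix.of_apply, Fin.val_castSucc]
      rw [if_pos (by omega)]
    simp only [h1]
    by_cases hq : (q.1 : ℕ) = 0
    · rw [if_pos hq]
      refine Finset.sum_eq_zero fun i _ => Finset.sum_eq_zero fun b _ => ?_
      rw [if_neg (by omega), mul_zero]
    · rw [if_neg hq]
      have hlt : (q.1 : ℕ) - 1 < m := by have := q.1.2; omega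
      rw [Finset.sum_eq_single (⟨(q.1 : ℕ) - 1, hlt⟩ : Fin m)]
      · rw [Finset.sum_eq_single q.2]
        · rw [if_pos ⟨by simp; omega, rfl⟩, mul_one]
          rfl
        · intro b _ hb
          rw [if_neg (fun h => hb h.2.symm), mul_zero]
        · intro h; exact absurd (Finset.mem_univ _) h
      · intro i _ hi
        refine Finset.sum_eq_zero fun b _ => ?_
        rw [if_neg ?_, mul_zero]
        rintro ⟨h, _⟩
        apply hi
        ext
        simp; omega
      · intro h; exact absurd (Finset.mem_univ _) h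
  rw [hfirst]
  by_cases hq : (q.1 : ℕ) = 0
  · by_cases hp : (p.1 : ℕ) = 0
    · simp [hp, hq]
    · simp [hp, hq]
  · by_cases hp : (p.1 : ℕ) = 0
    · rw [if_neg hq, if_pos hp, if_pos hp, if_neg hq]
      simp only [gram, Matrix.of_apply, hp, pow_zero, one_mul]
      have h1 : 0 + ((q.1 : ℕ) - 1) + 1 = (q.1 : ℕ) := by omega
      rw [h1, if_pos (by have := q.1.2; omega)]
      simp
    · rw [if_neg hq, if_neg hp, if_neg hp, if_neg hq, add_zero]
      simp only [gram, Matrix.of_apply]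
      have h1 : (p.1 : ℕ) + ((q.1 : ℕ) - 1) + 1 = (p.1 : ℕ) + (q.1 : ℕ) := by omega
      rw [h1]

lemma star_negpow_mul (a : ℕ) (z : ℍ[ℝ]) : star ((-1 : ℍ[ℝ]) ^ a * z) = (-1) ^ a * star z := by
  rw [star_mul, star_pow, star_neg, star_one]
  rcases neg_one_pow_eq_or ℍ[ℝ] a with hh | hh <;> rw [hh] <;> simp

lemma gram_skew (m : ℕ) {A : ℕ → Matrix (Fin n) (Fin n) ℍ[ℝ]} (hA : Admissible (m + 1) A) :
    (gram (m + 1) A * companion (m + 1) A)ᴴ = -(gram (m + 1) A * companion (m + 1) A) := by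
  ext1 p q
  rw [Matrix.conjTranspose_apply, Matrix.neg_apply, gram_mul_companion m hA.inv,
    gram_mul_companion m hA.inv]
  by_cases hq : (q.1 : ℕ) = 0
  · by_cases hp : (p.1 : ℕ) = 0
    · simp only [hq, hp, if_true]
      have h1 := hA.even 0 (by omega) (by simp)
      rw [star_neg, ← Matrix.conjTranspose_apply, h1, Matrix.neg_apply]
    · simp only [hq, hp, if_true, if_false, star_zero, neg_zero]
  · by_cases hp : (p.1 : ℕ) = 0
    · simp only [hq, hp, if_true, if_false, star_zero, neg_zero]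
    · simp only [hq, hp, if_false]
      by_cases h : (p.1 : ℕ) + (q.1 : ℕ) ≤ m + 1
      · rw [if_pos h, if_pos (by omega), star_negpow_mul, ← Matrix.conjTranspose_apply]
        have e : (q.1 : ℕ) + (p.1 : ℕ) = (p.1 : ℕ) + (q.1 : ℕ) := by omega
        rw [e]
        rcases Nat.even_or_odd ((p.1 : ℕ) + (q.1 : ℕ)) with he | ho
        · rw [hA.even _ h he, Matrix.neg_apply]
          have h3 : ((-1 : ℍ[ℝ])) ^ (q.1 : ℕ) = (-1) ^ (p.1 : ℕ) := by
            rcases Nat.even_or_odd (p.1 : ℕ) with hp | hp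
            · have hq : Even (q.1 : ℕ) := (Nat.even_add.1 he).1 hp
              rw [hp.neg_one_pow, hq.neg_one_pow]
            · have hq : Odd (q.1 : ℕ) := by
                rw [← Nat.not_even_iff_odd] at hp ⊢
                exact fun hh => hp ((Nat.even_add.1 he).2 hh)
              rw [hp.neg_one_pow, hq.neg_one_pow]
          rw [h3, mul_neg]
        · rw [hA.odd _ h ho]
          have h3 : ((-1 : ℍ[ℝ])) ^ (q.1 : ℕ) = - (-1) ^ (p.1 : ℕ) := by
            rcases Nat.even_or_odd (p.1 : ℕ) with hp | hp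
            · have hq : Odd (q.1 : ℕ) := by
                rw [← Nat.not_even_iff_odd] at ho ⊢
                exact fun hh => ho ((Nat.even_add).2 ⟨fun _ => hh, fun _ => hp⟩)
              rw [hp.neg_one_pow, hq.neg_one_pow]
            · have hq : Even (q.1 : ℕ) := by
                by_contra hh
                rw [← Nat.not_even_iff_odd] at ho hp
                exact ho ((Nat.even_add).2 ⟨fun h => absurd h hp, fun h => absurd h hh⟩)
              rw [hp.neg_one_pow, hq.neg_one_pow]; simp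
          rw [h3, neg_mul]
      · rw [if_neg h, if_neg (by omega), star_zero, neg_zero]

/-- `C* G = - G C`. -/
lemma companion_gram (m : ℕ) {A : ℕ → Matrix (Fin n) (Fin n) ℍ[ℝ]} (hA : Admissible (m + 1) A) :
    (companion (m + 1) A)ᴴ * gram (m + 1) A = -(gram (m + 1) A * companion (m + 1) A) := by
  rw [← gram_skew m hA, Matrix.conjTranspose_mul, gram_herm hA]

/-- The structure of an eigenvector. -/
lemma eig_struct (m : ℕ) {A : ℕ → Matrix (Fin n) (Fin n) ℍ[ℝ]} (hA : IsUnit (A (m + 1)))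
    (u : Fin (m + 1) × Fin n → ℍ[ℝ]) (lam : ℍ[ℝ])
    (hu : companion (m + 1) A *ᵥ u = rs u lam) :
    (∀ p, u p = u (0, p.2) * lam ^ (p.1 : ℕ)) ∧
      ∀ a, ∑ k ∈ range (m + 1 + 1), (A k *ᵥ fun b => u (0, b)) a * lam ^ k = 0 := by
  have h1 : ∀ (i : ℕ) (hi : i < m + 1) b, u (⟨i, hi⟩, b) = u (0, b) * lam ^ i := by
    intro i
    induction i with
    | zero => intro hi b; rw [pow_zero, mul_one]; rfl
    | succ i ih =>
      intro hi b
      have h2 := congrFun hu (⟨i, by omega⟩, b)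
      simp only [rs] at h2
      rw [ih] at h2
      rw [pow_succ, ← mul_assoc, ← h2]
      simp only [Matrix.mulVec, dotProduct, companion, Matrix.of_apply]
      rw [Finset.sum_eq_single (⟨i + 1, hi⟩, b)]
      · rw [if_pos hi, if_pos ⟨rfl, rfl⟩, one_mul]
      · rintro ⟨j, c⟩ _ hj
        rw [if_pos hi, if_neg, zero_mul]
        rintro ⟨h3, h4⟩
        apply hj
        simp only at h3 h4
        subst h4
        congr 1
        exact Fin.ext h3
      · intro h; exact absurd (Finset.mem_univ _) h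
  refine ⟨fun p => h1 p.1 p.1.2 p.2, ?_⟩
  -- the last block row
  have h3 : ∀ b, -∑ q : Fin (m + 1) × Fin n,
      (Ring.inverse (A (m + 1)) * A q.1) b q.2 * u q = u (0, b) * lam ^ (m + 1) := by
    intro b
    have h2 := congrFun hu (Fin.last m, b)
    simp only [rs] at h2
    rw [show (Fin.last m, b) = ((⟨m, by omega⟩ : Fin (m + 1)), b) from rfl, h1] at h2
    rw [pow_succ, ← mul_assoc, ← h2]
    simp only [Matrix.mulVec, dotProduct, companion, Matrix.of_apply, lt_irrefl, if_false,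
      neg_mul, Finset.sum_neg_distrib]
  intro a
  rw [Finset.sum_range_succ]
  have h4 : (A (m + 1) *ᵥ fun b => u (0, b)) a * lam ^ (m + 1)
      = ∑ b, A (m + 1) a b * (u (0, b) * lam ^ (m + 1)) := by
    simp only [Matrix.mulVec, dotProduct, Finset.sum_mul, mul_assoc]
  rw [h4]
  simp only [← h3]
  have h5 : ∑ b, A (m + 1) a b * -∑ q : Fin (m + 1) × Fin n,
      (Ring.inverse (A (m + 1)) * A q.1) b q.2 * u q =
      -∑ q : Fin (m + 1) × Fin n, A q.1 a q.2 * u q := by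
    simp only [mul_neg, Finset.sum_neg_distrib, neg_inj, Finset.mul_sum]
    rw [Finset.sum_comm]
    refine Finset.sum_congr rfl fun q _ => ?_
    simp only [← mul_assoc, ← Finset.sum_mul]
    congr 1
    have h6 : A q.1 = A (m + 1) * (Ring.inverse (A (m + 1)) * A q.1) := by
      rw [← mul_assoc, Ring.mul_inverse_cancel _ hA, one_mul]
    conv_rhs => rw [h6]
    rw [Matrix.mul_apply]
  rw [h5, Fintype.sum_prod_type, ← Fin.sum_univ_eq_sum_range
    (fun k => (A k *ᵥ fun b => u (0, b)) a * lam ^ k) (m + 1), ← sub_eq_add_neg, sub_eq_zero]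
  refine Finset.sum_congr rfl fun i _ => ?_
  simp only [Matrix.mulVec, dotProduct, Finset.sum_mul]
  refine Finset.sum_congr rfl fun b _ => ?_
  rw [h1 i i.2 b, mul_assoc]

lemma re_comm (a b : ℍ[ℝ]) : (a * b).re = (b * a).re := by
  simp only [Quaternion.re_mul]; ring

lemma comb_aux (f : ℕ → ℝ) (ℓ : ℕ) :
    ∑ i ∈ range ℓ, ∑ j ∈ range ℓ, (if i + j + 1 ≤ ℓ then f (i + j + 1) else 0)
      = ∑ k ∈ range (ℓ + 1), (k : ℝ) * f k := by
  induction ℓ with
  | zero => simp
  | succ ℓ ih =>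
    rw [Finset.sum_range_succ _ (ℓ + 1), ← ih]
    have h1 : ∑ i ∈ range (ℓ + 1), ∑ j ∈ range (ℓ + 1),
        (if i + j + 1 ≤ ℓ + 1 then f (i + j + 1) else 0)
        = ∑ i ∈ range (ℓ + 1), ∑ j ∈ range (ℓ + 1),
          ((if i + j + 1 ≤ ℓ then f (i + j + 1) else 0) + (if j = ℓ - i then f (ℓ + 1) else 0)) := by
      refine Finset.sum_congr rfl fun i hi => Finset.sum_congr rfl fun j hj => ?_
      have hi' := Finset.mem_range.1 hi
      have hj' := Finset.mem_range.1 hj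
      by_cases h : i + j + 1 ≤ ℓ
      · rw [if_pos h, if_pos (by omega), if_neg (by omega), add_zero]
      · rw [if_neg h]
        by_cases h2 : j = ℓ - i
        · rw [if_pos h2, if_pos (by omega), zero_add]
          congr 1; omega
        · rw [if_neg h2, if_neg (by omega), zero_add]
    rw [h1]
    simp only [Finset.sum_add_distrib]
    congr 1
    · rw [Finset.sum_range_succ]
      have h2 : ∑ j ∈ range (ℓ + 1), (if ℓ + j + 1 ≤ ℓ then f (ℓ + j + 1) else 0) = 0 := by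
        refine Finset.sum_eq_zero fun j _ => ?_
        rw [if_neg (by omega)]
      rw [h2, add_zero]
      refine Finset.sum_congr rfl fun i hi => ?_
      rw [Finset.sum_range_succ, if_neg (by omega), add_zero]
    · have h3 : ∀ i ∈ range (ℓ + 1), ∑ j ∈ range (ℓ + 1), (if j = ℓ - i then f (ℓ + 1) else 0)
          = f (ℓ + 1) := by
        intro i _
        rw [Finset.sum_ite_eq' (range (ℓ + 1)) (ℓ - i), if_pos (by simp only [Finset.mem_range]; omega)]
      rw [Finset.sum_congr rfl h3]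
      simp

/-- The value of the form at an eigenvector. -/
lemma form_eig (ℓ : ℕ) (A : ℕ → Matrix (Fin n) (Fin n) ℍ[ℝ]) (x : Fin n → ℍ[ℝ]) (lam : ℍ[ℝ])
    (hlam : lam.re = 0) (u : Fin ℓ × Fin n → ℍ[ℝ]) (hu : ∀ p, u p = x p.2 * lam ^ (p.1 : ℕ)) :
    (fm (gram ℓ A) u u).re
      = ∑ k ∈ range (ℓ + 1), (k : ℝ) * (fm (A k) x x * lam ^ (k - 1)).re := by
  have hst : star lam = - lam := by
    rw [Quaternion.star_eq_neg]; exact hlam
  have h1 : fm (gram ℓ A) u u = ∑ i : Fin ℓ, ∑ j : Fin ℓ,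
      (if (i : ℕ) + (j : ℕ) + 1 ≤ ℓ then
        lam ^ (i : ℕ) * (fm (A ((i : ℕ) + (j : ℕ) + 1)) x x) * lam ^ (j : ℕ) else 0) := by
    simp only [fm, Matrix.mulVec, dotProduct, Fintype.sum_prod_type, Pi.star_apply]
    refine Finset.sum_congr rfl fun i _ => ?_
    simp only [Finset.mul_sum]
    rw [Finset.sum_comm]
    refine Finset.sum_congr rfl fun j _ => ?_
    by_cases h : (i : ℕ) + (j : ℕ) + 1 ≤ ℓ
    · rw [if_pos h]
      simp only [Finset.sum_mul]
      refine Finset.sum_congr rfl fun a _ => Finset.sum_congr rfl fun b _ => ?_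
      simp only [gram, Matrix.of_apply, if_pos h, hu, star_mul, star_pow, hst]
      have h2 : (-lam) ^ (i : ℕ) = (-1) ^ (i : ℕ) * lam ^ (i : ℕ) := by
        rw [neg_pow]
      rw [h2]
      rcases neg_one_pow_eq_or ℍ[ℝ] (i : ℕ) with hh | hh <;> rw [hh] <;>
        simp only [one_mul, neg_mul, mul_neg, neg_neg, mul_assoc]
    · rw [if_neg h]
      refine Finset.sum_eq_zero fun a _ => Finset.sum_eq_zero fun b _ => ?_
      simp only [gram, Matrix.of_apply, if_neg h, zero_mul, mul_zero]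
  rw [h1, ← comb_aux (fun k => (fm (A k) x x * lam ^ (k - 1)).re) ℓ,
    ← Fin.sum_univ_eq_sum_range (fun i => ∑ j ∈ range ℓ, (if i + j + 1 ≤ ℓ then
      (fm (A (i + j + 1)) x x * lam ^ (i + j + 1 - 1)).re else 0)) ℓ]
  have hre : ∀ (s : Finset (Fin ℓ)) (f : Fin ℓ → ℍ[ℝ]), (∑ i ∈ s, f i).re = ∑ i ∈ s, (f i).re := by
    intro s f
    classical
    induction s using Finset.induction_on with
    | empty => simp
    | insert a s ha ih => rw [Finset.sum_insert ha, Finset.sum_insert ha, Quaternion.re_add, ih]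
  rw [hre]
  refine Finset.sum_congr rfl fun i _ => ?_
  rw [hre, ← Fin.sum_univ_eq_sum_range (fun j => (if (i : ℕ) + j + 1 ≤ ℓ then
      (fm (A ((i : ℕ) + j + 1)) x x * lam ^ ((i : ℕ) + j + 1 - 1)).re else 0)) ℓ]
  refine Finset.sum_congr rfl fun j _ => ?_
  by_cases h : (i : ℕ) + (j : ℕ) + 1 ≤ ℓ
  · rw [if_pos h, if_pos h, re_comm, ← mul_assoc, ← pow_add, re_comm]
    congr 3
    omega
  · rw [if_neg h, if_neg h]; rfl

end CG

/-! ### The perturbation -/

section pert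

variable {n : ℕ}

lemma shift_deriv (lam : ℍ[ℝ]) (k : ℕ) (t : ℝ) :
    HasDerivAt (fun s : ℝ => (lam + (s : ℍ[ℝ])) ^ k)
      ((k : ℝ) • (lam + (t : ℍ[ℝ])) ^ (k - 1)) t := by
  have h0 : HasDerivAt (fun s : ℝ => lam + (s : ℍ[ℝ])) 1 t := by
    have h1 : HasDerivAt (fun s : ℝ => s • (1 : ℍ[ℝ])) ((1 : ℝ) • (1 : ℍ[ℝ])) t :=
      (hasDerivAt_id t).smul_const (1 : ℍ[ℝ])
    have h2 := h1.const_add lam
    rw [one_smul] at h2
    refine h2.congr_of_eventuallyEq (Filter.Eventually.of_forall fun s => ?_)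
    simp only
    congr 1
    ext <;> simp
  induction k with
  | zero => simpa using hasDerivAt_const t (1 : ℍ[ℝ])
  | succ k ih =>
    have h2 := ih.mul h0
    refine (h2.congr_deriv ?_).congr_of_eventuallyEq
      (Filter.Eventually.of_forall fun s => by simp only [pow_succ]; rfl)
    rcases k with _ | k
    · simp
    · simp only [Nat.add_sub_cancel, mul_one]
      rw [smul_mul_assoc, ← pow_succ]
      push_cast
      rw [add_smul (k + 1 : ℝ) 1, one_smul]

lemma re_sum {ι : Type} (s : Finset ι) (f : ι → ℍ[ℝ]) : (∑ i ∈ s, f i).re = ∑ i ∈ s, (f i).re := by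
  classical
  induction s using Finset.induction_on with
  | empty => simp
  | insert a s ha ih => rw [Finset.sum_insert ha, Finset.sum_insert ha, Quaternion.re_add, ih]

lemma re_deriv {f : ℝ → ℍ[ℝ]} {f' : ℍ[ℝ]} {t : ℝ} (h : HasDerivAt f f' t) :
    HasDerivAt (fun s => (f s).re) f'.re t := by
  let L : ℍ[ℝ] →L[ℝ] ℝ := LinearMap.toContinuousLinearMap
    { toFun := fun q => q.re
      map_add' := fun a b => Quaternion.re_add a b
      map_smul' := fun c a => by simp }
  exact (L.hasFDerivAt.comp_hasDerivAt t h)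

/-- `Σ A_k x (lam + δ)^k`. -/
noncomputable def rr (ℓ : ℕ) (A : ℕ → Matrix (Fin n) (Fin n) ℍ[ℝ]) (x : Fin n → ℍ[ℝ])
    (lam : ℍ[ℝ]) (δ : ℝ) (a : Fin n) : ℍ[ℝ] :=
  ∑ k ∈ range (ℓ + 1), (A k *ᵥ x) a * (lam + (δ : ℍ[ℝ])) ^ k

noncomputable def ph (ℓ : ℕ) (A : ℕ → Matrix (Fin n) (Fin n) ℍ[ℝ]) (x : Fin n → ℍ[ℝ])
    (lam : ℍ[ℝ]) (δ : ℝ) : ℝ :=
  ∑ k ∈ range (ℓ + 1), (fm (A k) x x * (lam + (δ : ℍ[ℝ])) ^ k).re

lemma ph_eq (ℓ : ℕ) (A : ℕ → Matrix (Fin n) (Fin n) ℍ[ℝ]) (x : Fin n → ℍ[ℝ])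
    (lam : ℍ[ℝ]) (δ : ℝ) : (star x ⬝ᵥ rr ℓ A x lam δ).re = ph ℓ A x lam δ := by
  unfold ph rr fm
  rw [← re_sum]
  congr 1
  simp only [dotProduct, Finset.mul_sum, Finset.sum_mul, Pi.star_apply]
  rw [Finset.sum_comm]
  simp only [mul_assoc]

lemma ph_deriv (ℓ : ℕ) (A : ℕ → Matrix (Fin n) (Fin n) ℍ[ℝ]) (x : Fin n → ℍ[ℝ])
    (lam : ℍ[ℝ]) :
    HasDerivAt (ph ℓ A x lam)
      (∑ k ∈ range (ℓ + 1), (k : ℝ) * (fm (A k) x x * lam ^ (k - 1)).re) 0 := by
  unfold ph
  refine HasDerivAt.fun_sum fun k _ => ?_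
  have h1 := re_deriv ((shift_deriv lam k 0).const_mul (fm (A k) x x))
  refine h1.congr_deriv ?_
  simp

lemma rr_tendsto (ℓ : ℕ) (A : ℕ → Matrix (Fin n) (Fin n) ℍ[ℝ]) (x : Fin n → ℍ[ℝ])
    (lam : ℍ[ℝ]) (h0 : ∀ a, ∑ k ∈ range (ℓ + 1), (A k *ᵥ x) a * lam ^ k = 0) (a : Fin n) :
    Filter.Tendsto (fun δ => rr ℓ A x lam δ a) (nhds 0) (nhds 0) := by
  have h1 : Continuous (fun δ : ℝ => rr ℓ A x lam δ a) := by
    unfold rr
    refine continuous_finsetSum _ fun k _ => ?_
    refine continuous_const.mul ?_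
    exact continuous_iff_continuousAt.2 fun t => (shift_deriv lam k t).continuousAt
  have h2 := h1.tendsto 0
  have h3 : rr ℓ A x lam 0 a = 0 := by
    unfold rr
    rw [← h0 a]
    simp
  rwa [h3] at h2

/-- The squared norm `x* x`. -/
noncomputable def sq (x : Fin n → ℍ[ℝ]) : ℝ := ∑ a, ‖x a‖ ^ 2

lemma sq_pos {x : Fin n → ℍ[ℝ]} (hx : x ≠ 0) : 0 < sq x := by
  obtain ⟨a, ha⟩ := Function.ne_iff.1 hx
  have ha' : 0 < ‖x a‖ := norm_pos_iff.2 ha
  exact Finset.sum_pos' (fun i _ => by positivity) ⟨a, Finset.mem_univ _, by positivity⟩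

lemma sq_eq (x : Fin n → ℍ[ℝ]) : ∑ b, star (x b) * x b = ((sq x : ℝ) : ℍ[ℝ]) := by
  have h1 : ∀ b, star (x b) * x b = ((‖x b‖ ^ 2 : ℝ) : ℍ[ℝ]) := by
    intro b
    rw [Quaternion.star_mul_self, Quaternion.normSq_eq_norm_mul_self, pow_two]
  simp only [h1]
  unfold sq
  ext
  · rw [re_sum]; simp only [Quaternion.re_coe]
  · have : ∀ s : Finset (Fin n), (∑ i ∈ s, ((‖x i‖ ^ 2 : ℝ) : ℍ[ℝ])) =
        ((∑ i ∈ s, ‖x i‖ ^ 2 : ℝ) : ℍ[ℝ]) := by
      intro s
      classical
      induction s using Finset.induction_on with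
      | empty => simp
      | insert a s ha ih => rw [Finset.sum_insert ha, Finset.sum_insert ha, ih, Quaternion.coe_add]
    rw [this]
  · have : ∀ s : Finset (Fin n), (∑ i ∈ s, ((‖x i‖ ^ 2 : ℝ) : ℍ[ℝ])) =
        ((∑ i ∈ s, ‖x i‖ ^ 2 : ℝ) : ℍ[ℝ]) := by
      intro s
      classical
      induction s using Finset.induction_on with
      | empty => simp
      | insert a s ha ih => rw [Finset.sum_insert ha, Finset.sum_insert ha, ih, Quaternion.coe_add]
    rw [this]
  · have : ∀ s : Finset (Fin n), (∑ i ∈ s, ((‖x i‖ ^ 2 : ℝ) : ℍ[ℝ])) =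
        ((∑ i ∈ s, ‖x i‖ ^ 2 : ℝ) : ℍ[ℝ]) := by
      intro s
      classical
      induction s using Finset.induction_on with
      | empty => simp
      | insert a s ha ih => rw [Finset.sum_insert ha, Finset.sum_insert ha, ih, Quaternion.coe_add]
    rw [this]

lemma coe_comm' (r : ℝ) (q : ℍ[ℝ]) : q * (r : ℍ[ℝ]) = r • q := by
  rw [Quaternion.mul_coe_eq_smul]

lemma perturb (ℓ : ℕ) (hℓ : 1 ≤ ℓ) {A : ℕ → Matrix (Fin n) (Fin n) ℍ[ℝ]} (hA : Admissible ℓ A)
    (hs : IsStablyBounded ℓ A) (x : Fin n → ℍ[ℝ]) (hx : x ≠ 0) (lam : ℍ[ℝ]) (hlam : lam.re = 0)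
    (h0 : ∀ a, ∑ k ∈ range (ℓ + 1), (A k *ᵥ x) a * lam ^ k = 0)
    (hrho : ∑ k ∈ range (ℓ + 1), (k : ℝ) * (fm (A k) x x * lam ^ (k - 1)).re = 0) : False := by
  obtain ⟨ε, hε, hst⟩ := hs
  set N : ℝ := sq x with hN
  have hNpos : 0 < N := sq_pos hx
  have hN0 : N ≠ 0 := hNpos.ne'
  set h : ℝ → ℝ := fun δ => -(ph ℓ A x lam δ) / (N ^ 2 * δ) with hh
  set sv : ℝ → Fin n → ℍ[ℝ] := fun δ a =>
    rr ℓ A x lam δ a + (h δ * N) • (x a * (lam + (δ : ℍ[ℝ]))) with hsv
  set z : ℝ → ℍ[ℝ] := fun δ => ∑ c, star (sv δ c) * x c with hz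
  set H : ℝ → Matrix (Fin n) (Fin n) ℍ[ℝ] := fun δ =>
    Matrix.of fun a b => h δ • (x a * star (x b)) with hH
  set S : ℝ → Matrix (Fin n) (Fin n) ℍ[ℝ] := fun δ => Matrix.of fun a b =>
    -(N⁻¹ • (sv δ a * star (x b))) + N⁻¹ • (x a * star (sv δ b))
      - (N⁻¹ ^ 2) • (x a * z δ * star (x b)) with hS
  -- value at zero of `ph`
  have hph0 : ph ℓ A x lam 0 = 0 := by
    rw [← ph_eq]
    have : rr ℓ A x lam 0 = 0 := by
      funext a
      unfold rr
      rw [Pi.zero_apply, ← h0 a]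
      simp
    rw [this]; simp
  -- limits
  have hhlim : Filter.Tendsto h (nhdsWithin 0 {0}ᶜ) (nhds 0) := by
    have h1 := ph_deriv ℓ A x lam
    rw [hrho, hasDerivAt_iff_tendsto_slope] at h1
    have h2 := h1.const_mul (-(N ^ 2)⁻¹)
    rw [mul_zero] at h2
    refine h2.congr fun δ => ?_
    rw [slope_def_field, hph0, sub_zero, sub_zero, hh]
    simp only
    rw [neg_mul, neg_div, mul_comm (N ^ 2) δ, ← div_div, div_eq_mul_inv _ (N ^ 2),
      mul_comm (N ^ 2)⁻¹]
  have hδlim : Filter.Tendsto (fun δ : ℝ => lam + (δ : ℍ[ℝ])) (nhdsWithin 0 {0}ᶜ)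
      (nhds (lam + ((0 : ℝ) : ℍ[ℝ]))) := by
    have h1 := (shift_deriv lam 1 0).continuousAt.tendsto
    simp only [pow_one] at h1
    exact h1.mono_left nhdsWithin_le_nhds
  have hsvlim : ∀ a, Filter.Tendsto (fun δ => sv δ a) (nhdsWithin 0 {0}ᶜ) (nhds 0) := by
    intro a
    have h1 := (rr_tendsto ℓ A x lam h0 a).mono_left (nhdsWithin_le_nhds (s := {0}ᶜ))
    have h2 := (hhlim.mul_const N).smul ((tendsto_const_nhds (x := x a)).mul hδlim)
    rw [zero_mul, zero_smul] at h2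
    have h3 := h1.add h2
    rwa [add_zero] at h3
  have hsvlim' : ∀ a, Filter.Tendsto (fun δ => star (sv δ a)) (nhdsWithin 0 {0}ᶜ) (nhds 0) := by
    intro a
    have h1 := (hsvlim a).star
    rwa [star_zero] at h1
  have hzlim : Filter.Tendsto z (nhdsWithin 0 {0}ᶜ) (nhds 0) := by
    have h1 : Filter.Tendsto (fun δ => ∑ c, star (sv δ c) * x c) (nhdsWithin 0 {0}ᶜ)
        (nhds (∑ c : Fin n, (0 : ℍ[ℝ]) * x c)) :=
      tendsto_finsetSum _ fun c _ => (hsvlim' c).mul tendsto_const_nhds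
    simpa using h1
  have hHlim : ∀ a b, Filter.Tendsto (fun δ => H δ a b) (nhdsWithin 0 {0}ᶜ) (nhds 0) := by
    intro a b
    have h1 := hhlim.smul_const (x a * star (x b))
    rwa [zero_smul] at h1
  have hSlim : ∀ a b, Filter.Tendsto (fun δ => S δ a b) (nhdsWithin 0 {0}ᶜ) (nhds 0) := by
    intro a b
    have h1 := (((hsvlim a).mul_const (star (x b))).const_smul N⁻¹).neg
    have h2 := ((hsvlim' b).const_mul (x a)).const_smul N⁻¹
    have h3 := ((hzlim.const_mul (x a)).mul_const (star (x b))).const_smul (N⁻¹ ^ 2)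
    have h4 := (h1.add h2).sub h3
    simp only [mul_zero, zero_mul, smul_zero, neg_zero, add_zero, sub_zero] at h4
    exact h4
  have hev : ∀ᶠ δ in nhdsWithin (0 : ℝ) {0}ᶜ,
      (∀ a b, ‖S δ a b‖ < ε) ∧ (∀ a b, ‖H δ a b‖ < ε) := by
    have h1 : ∀ {f : ℝ → ℍ[ℝ]}, Filter.Tendsto f (nhdsWithin 0 {0}ᶜ) (nhds 0) →
        ∀ᶠ δ in nhdsWithin (0 : ℝ) {0}ᶜ, ‖f δ‖ < ε := by
      intro f hf
      have h2 := hf.norm
      rw [norm_zero] at h2
      exact h2.eventually (gt_mem_nhds hε)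
    refine Filter.Eventually.and ?_ ?_
    · rw [Filter.eventually_all]; intro a
      rw [Filter.eventually_all]; intro b
      exact h1 (hSlim a b)
    · rw [Filter.eventually_all]; intro a
      rw [Filter.eventually_all]; intro b
      exact h1 (hHlim a b)
  obtain ⟨δ, ⟨hSδ, hHδ⟩, hδ⟩ := (hev.and self_mem_nhdsWithin).exists
  have hδ0 : δ ≠ 0 := hδ
  -- the quaternion `z` is purely imaginary
  have hzre : (z δ).re = 0 := by
    have h1 : (z δ).re = (∑ c, star (x c) * sv δ c).re := by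
      rw [← Quaternion.re_star (z δ)]
      congr 1
      simp only [hz, star_sum, star_mul, star_star]
    have h2 : ∑ c, star (x c) * sv δ c = star x ⬝ᵥ rr ℓ A x lam δ +
        (h δ * N) • (((N : ℝ) : ℍ[ℝ]) * (lam + (δ : ℍ[ℝ]))) := by
      have hNq : ((N : ℝ) : ℍ[ℝ]) = ∑ b, star (x b) * x b := (sq_eq x).symm
      rw [hNq]
      simp only [hsv, dotProduct, Pi.star_apply, mul_add, Finset.sum_add_distrib, Finset.smul_sum,
        Finset.sum_mul, mul_smul_comm, mul_assoc, smul_add]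
    rw [h1, h2, Quaternion.re_add, ph_eq]
    have h3 : ((h δ * N) • (((N : ℝ) : ℍ[ℝ]) * (lam + (δ : ℍ[ℝ])))).re = h δ * N * (N * δ) := by
      rw [Quaternion.re_smul, Quaternion.coe_mul_eq_smul, Quaternion.re_smul, Quaternion.re_add,
        hlam, Quaternion.re_coe]
      simp
    rw [h3, hh]
    field_simp
    ring
  have hzst : star (z δ) = - z δ := by
    rw [Quaternion.star_eq_neg]; exact hzre
  -- the perturbed coefficients
  set A' : ℕ → Matrix (Fin n) (Fin n) ℍ[ℝ] := fun k =>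
    if k = 0 then A 0 + S δ else if k = 1 then A 1 + H δ else A k with hA'
  have hSskew : (S δ)ᴴ = - S δ := by
    ext1 a b
    simp only [hS, Matrix.conjTranspose_apply, Matrix.of_apply, Matrix.neg_apply]
    simp only [star_sub, star_add, star_neg, Quaternion.star_smul, star_mul, star_star, hzst]
    simp only [mul_neg, neg_mul, smul_neg, mul_assoc]
    abel
  have hHherm : (H δ)ᴴ = H δ := by
    ext1 a b
    simp only [hH, Matrix.conjTranspose_apply, Matrix.of_apply]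
    simp only [Quaternion.star_smul, star_mul, star_star]
  have hadm : Admissible ℓ A' := by
    refine ⟨fun k hk ho => ?_, fun k hk he => ?_, ?_⟩
    · have hk0 : k ≠ 0 := by rintro rfl; simp at ho
      simp only [hA', if_neg hk0]
      by_cases hk1 : k = 1
      · rw [if_pos hk1, Matrix.conjTranspose_add, hHherm, hA.odd 1 hℓ odd_one]
      · rw [if_neg hk1, hA.odd k hk ho]
    · by_cases hk0 : k = 0
      · simp only [hA', if_pos hk0]
        rw [Matrix.conjTranspose_add, hSskew, hA.even 0 (by omega) (by simp), neg_add]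
      · have hk1 : k ≠ 1 := by rintro rfl; simp at he
        simp only [hA', if_neg hk0, if_neg hk1]
        exact hA.even k hk he
    · by_cases hl1 : ℓ = 1
      · -- then `H = 0`
        have h1 : (fm (A 1) x x).re = 0 := by
          rw [hl1] at hrho
          simpa [Finset.sum_range_succ] using hrho
        have h2 : fm (A 1) x x = 0 := by
          have h3 : star (fm (A 1) x x) = fm (A 1) x x := by
            rw [fm_star, hA.odd 1 hℓ odd_one]
          rw [Quaternion.star_eq_self] at h3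
          rw [h3, h1]; simp
        have h3 : (fm (A 0) x x).re = 0 := by
          have h4 : star (fm (A 0) x x) = - fm (A 0) x x := by
            rw [fm_star, hA.even 0 (by omega) (by simp)]
            simp [fm, Matrix.neg_mulVec, dotProduct_neg]
          rwa [Quaternion.star_eq_neg] at h4
        have h4 : ph ℓ A x lam δ = 0 := by
          rw [hl1]
          unfold ph
          simp [Finset.sum_range_succ, h2, h3]
        have h5 : H δ = 0 := by
          ext1 a b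
          simp only [hH, Matrix.of_apply, hh, h4]
          simp
        simp only [hA', hl1, if_neg one_ne_zero, if_true, h5, add_zero]
        rw [← hl1]; rw [hl1]
        have := hA.inv
        rwa [hl1] at this
      · have hl0 : ℓ ≠ 0 := by omega
        simp only [hA', if_neg hl1, if_neg hl0]
        exact hA.inv
  have hclose : ∀ k, k ≤ ℓ → ∀ i j, ‖A' k i j - A k i j‖ < ε := by
    intro k _ i j
    simp only [hA']
    by_cases hk0 : k = 0
    · rw [if_pos hk0, hk0, Matrix.add_apply, add_sub_cancel_left]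
      exact hSδ i j
    · rw [if_neg hk0]
      by_cases hk1 : k = 1
      · rw [if_pos hk1, hk1, Matrix.add_apply, add_sub_cancel_left]
        exact hHδ i j
      · rw [if_neg hk1, sub_self, norm_zero]
        exact hε
  have hb := hst A' hadm hclose
  refine sol_unbounded ℓ A' x (lam + (δ : ℍ[ℝ])) hx ?_ ?_ hb
  · rw [Quaternion.re_add, hlam, Quaternion.re_coe, zero_add]; exact hδ0
  · intro a
    have hHx : (H δ *ᵥ x) a = (h δ * N) • x a := by
      simp only [hH, Matrix.mulVec, dotProduct, Matrix.of_apply, smul_mul_assoc, mul_assoc]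
      rw [← Finset.smul_sum, ← Finset.mul_sum, sq_eq, Quaternion.mul_coe_eq_smul, smul_smul]
    have hSx : (S δ *ᵥ x) a = - sv δ a := by
      simp only [hS, Matrix.mulVec, dotProduct, Matrix.of_apply, sub_mul, add_mul, neg_mul,
        smul_mul_assoc, Finset.sum_sub_distrib, Finset.sum_add_distrib, Finset.sum_neg_distrib]
      simp only [mul_assoc, ← Finset.smul_sum, ← Finset.mul_sum]
      rw [sq_eq, ← hN]
      simp only [Quaternion.mul_coe_eq_smul, mul_smul_comm, smul_smul, inv_mul_cancel₀ hN0,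
        one_smul]
      have : N⁻¹ ^ 2 * N = N⁻¹ := by field_simp
      rw [this]
      simp only [hz]
      abel
    have hsplit : ∑ k ∈ range (ℓ + 1), (A' k *ᵥ x) a * (lam + (δ : ℍ[ℝ])) ^ k
        = rr ℓ A x lam δ a + ((S δ *ᵥ x) a + (H δ *ᵥ x) a * (lam + (δ : ℍ[ℝ]))) := by
      obtain ⟨m, rfl⟩ : ∃ m, ℓ = m + 1 := ⟨ℓ - 1, by omega⟩
      unfold rr
      rw [Finset.sum_range_succ', Finset.sum_range_succ', Finset.sum_range_succ',
        Finset.sum_range_succ' _ m]
      have h1 : ∀ k ∈ range m, (A' (k + 1 + 1) *ᵥ x) a * (lam + (δ : ℍ[ℝ])) ^ (k + 1 + 1)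
          = (A (k + 1 + 1) *ᵥ x) a * (lam + (δ : ℍ[ℝ])) ^ (k + 1 + 1) := by
        intro k _
        simp only [hA']
        rw [if_neg (by omega), if_neg (by omega)]
      rw [Finset.sum_congr rfl h1]
      simp only [hA', if_true, Matrix.add_mulVec, Pi.add_apply, zero_add, one_ne_zero, if_false,
        pow_zero, mul_one, pow_one, add_mul]
      abel
    rw [hsplit, hSx, hHx]
    simp only [hsv, smul_mul_assoc]
    abel

end pert

/-! ### Definiteness -/

section defn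

variable {ι : Type} [Fintype ι]

lemma fm_smul_left (M : Matrix ι ι ℍ[ℝ]) (c : ℝ) (u v : ι → ℍ[ℝ]) :
    fm M (c • u) v = c • fm M u v := by
  unfold fm
  simp only [dotProduct, Pi.star_apply, Pi.smul_apply, Quaternion.star_smul, smul_mul_assoc,
    Finset.smul_sum]

lemma fm_smul_right (M : Matrix ι ι ℍ[ℝ]) (c : ℝ) (u v : ι → ℍ[ℝ]) :
    fm M u (c • v) = c • fm M u v := by
  unfold fm
  rw [Matrix.mulVec_smul, dotProduct_smul]

lemma fm_zero_right (M : Matrix ι ι ℍ[ℝ]) (u : ι → ℍ[ℝ]) : fm M u 0 = 0 := by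
  unfold fm
  rw [Matrix.mulVec_zero, dotProduct_zero]

lemma rs_add (u v : ι → ℍ[ℝ]) (q : ℍ[ℝ]) : rs (u + v) q = rs u q + rs v q := by
  funext p; simp only [rs, Pi.add_apply, add_mul]

lemma rs_sub (u v : ι → ℍ[ℝ]) (q : ℍ[ℝ]) : rs (u - v) q = rs u q - rs v q := by
  funext p; simp only [rs, Pi.sub_apply, sub_mul]

lemma rs_smul (c : ℝ) (u : ι → ℍ[ℝ]) (q : ℍ[ℝ]) : rs (c • u) q = c • rs u q := by
  funext p; simp only [rs, Pi.smul_apply, smul_mul_assoc]

lemma rs_rs (u : ι → ℍ[ℝ]) (q r : ℍ[ℝ]) : rs (rs u q) r = rs u (q * r) := by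
  funext p; simp only [rs, mul_assoc]

lemma rs_neg (u : ι → ℍ[ℝ]) (q : ℍ[ℝ]) : rs u (-q) = - rs u q := by
  funext p; simp only [rs, Pi.neg_apply, mul_neg]

lemma rs_coe (u : ι → ℍ[ℝ]) (c : ℝ) : rs u (c : ℍ[ℝ]) = c • u := by
  funext p; simp only [rs, Pi.smul_apply, Quaternion.mul_coe_eq_smul]

variable {G C : Matrix ι ι ℍ[ℝ]}

lemma fm_real (hG : Gᴴ = G) (u : ι → ℍ[ℝ]) : fm G u u = (((fm G u u).re : ℝ) : ℍ[ℝ]) := by
  have h := fm_star G u u
  rw [hG, Quaternion.star_eq_self] at h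
  exact h

lemma fm_C (hCG : Cᴴ * G = -(G * C)) (u v : ι → ℍ[ℝ]) :
    fm G (C *ᵥ u) v = - fm G u (C *ᵥ v) := by
  rw [fm_mulVec_left, fm_mulVec_right, hCG]
  unfold fm
  rw [Matrix.neg_mulVec, dotProduct_neg]

/-- All values of the form on the eigenvectors have the same sign. -/
lemma sign_eig (lam : ℍ[ℝ])
    (hne : ∀ u : ι → ℍ[ℝ], u ≠ 0 → C *ᵥ u = rs u lam → (fm G u u).re ≠ 0) :
    ∃ σ : ℝ, (σ = 1 ∨ σ = -1) ∧
      ∀ u : ι → ℍ[ℝ], u ≠ 0 → C *ᵥ u = rs u lam → 0 < σ * (fm G u u).re := by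
  by_cases hpos : ∀ u : ι → ℍ[ℝ], u ≠ 0 → C *ᵥ u = rs u lam → 0 < (fm G u u).re
  · exact ⟨1, Or.inl rfl, fun u h1 h2 => by rw [one_mul]; exact hpos u h1 h2⟩
  · push Not at hpos
    obtain ⟨v, hv0, hv, hvg⟩ := hpos
    have hvneg : (fm G v v).re < 0 := lt_of_le_of_ne hvg (hne v hv0 hv)
    refine ⟨-1, Or.inr rfl, fun u hu0 hu => ?_⟩
    rw [neg_one_mul, neg_pos]
    by_contra hcon
    have hupos : 0 < (fm G u u).re := lt_of_le_of_ne (not_lt.1 hcon) (hne u hu0 hu).symm
    -- the quadratic function along the segment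
    set w : ℝ → ι → ℍ[ℝ] := fun s => (1 - s) • u + s • v with hw
    have hval : ∀ s, (fm G (w s) (w s)).re = (1 - s) ^ 2 * (fm G u u).re
        + s * (1 - s) * ((fm G u v).re + (fm G v u).re) + s ^ 2 * (fm G v v).re := by
      intro s
      simp only [hw, fm_add_left, fm_add_right, fm_smul_left, fm_smul_right, Quaternion.re_add,
        Quaternion.re_smul, smul_eq_mul]
      ring
    have hcont : Continuous (fun s => (fm G (w s) (w s)).re) := by
      simp only [hval]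
      fun_prop
    have h0 : (fm G (w 0) (w 0)).re = (fm G u u).re := by rw [hval]; ring
    have h1 : (fm G (w 1) (w 1)).re = (fm G v v).re := by rw [hval]; ring
    have hmem : (0 : ℝ) ∈ Set.Icc ((fm G (w 1) (w 1)).re) ((fm G (w 0) (w 0)).re) := by
      rw [h0, h1]; exact ⟨hvneg.le, hupos.le⟩
    obtain ⟨s, hs, hs0⟩ := intermediate_value_Icc' (zero_le_one (α := ℝ)) hcont.continuousOn hmem
    simp only at hs0
    have hwE : C *ᵥ (w s) = rs (w s) lam := by
      simp only [hw, Matrix.mulVec_add, Matrix.mulVec_smul, hu, hv, rs_add, rs_smul]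
    have hwz : w s = 0 := by
      by_contra hcc
      exact hne _ hcc hwE hs0
    -- then `(1 - s) u = - s v`
    have h2 : (1 - s) • u = -(s • v) := by
      have : (1 - s) • u + s • v = 0 := hwz
      exact eq_neg_of_add_eq_zero_left this
    have h3 : (fm G ((1 - s) • u) ((1 - s) • u)).re = (fm G (s • v) (s • v)).re := by
      rw [h2]
      have : -(s • v) = (-1 : ℝ) • (s • v) := by rw [neg_smul, one_smul]
      rw [this, fm_smul_left, fm_smul_right, smul_smul]
      norm_num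
    simp only [fm_smul_left, fm_smul_right, Quaternion.re_smul, smul_eq_mul] at h3
    have hs1 := hs.1
    have hs2 := hs.2
    have h4 : 0 ≤ (1 - s) * ((1 - s) * (fm G u u).re) := by
      have : 0 ≤ 1 - s := by linarith
      positivity
    have h5 : s * (s * (fm G v v).re) ≤ 0 := by nlinarith [mul_self_nonneg s]
    have h6 : (1 - s) * ((1 - s) * (fm G u u).re) = 0 := by linarith
    have h7 : s * (s * (fm G v v).re) = 0 := by linarith
    have h8 : 1 - s = 0 := by
      rcases mul_eq_zero.1 h6 with h | h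
      · exact h
      · rcases mul_eq_zero.1 h with h | h
        · exact h
        · exact absurd h hupos.ne'
    have h9 : s = 0 := by
      rcases mul_eq_zero.1 h7 with h | h
      · exact h
      · rcases mul_eq_zero.1 h with h | h
        · exact h
        · exact absurd h hvneg.ne
    linarith

/-- If the form is definite on the kernel of `T` and `T` is symmetric or skew with respect to it,
the kernels of the powers of `T` are equal to the kernel of `T`. -/
lemma ker_pow [DecidableEq ι] (T : Matrix ι ι ℍ[ℝ]) (τ σ : ℝ)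
    (hT : ∀ u v, fm G (T *ᵥ u) v = τ • fm G u (T *ᵥ v))
    (hpos : ∀ v : ι → ℍ[ℝ], v ≠ 0 → T *ᵥ v = 0 → 0 < σ * (fm G v v).re) :
    ∀ (N : ℕ) (u : ι → ℍ[ℝ]), T ^ N *ᵥ u = 0 → T *ᵥ u = 0 := by
  intro N
  induction N with
  | zero => intro u hu; rw [pow_zero, Matrix.one_mulVec] at hu; rw [hu, Matrix.mulVec_zero]
  | succ N ih =>
    intro u hu
    rcases N with _ | N
    · simpa using hu
    · apply ih
      set w := T ^ N *ᵥ u with hw
      have h1 : T *ᵥ (T *ᵥ w) = 0 := by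
        rw [hw, Matrix.mulVec_mulVec, Matrix.mulVec_mulVec, mul_assoc, ← pow_succ', ← pow_succ']
        exact hu
      by_contra hcc
      have h2 : T *ᵥ w ≠ 0 := by
        intro h
        apply hcc
        rw [pow_succ', ← Matrix.mulVec_mulVec]
        exact h
      have h3 := hpos _ h2 h1
      rw [hT, h1, fm_zero_right, smul_zero] at h3
      simp at h3

lemma exists_anti (lam : ℍ[ℝ]) (h0 : lam.re = 0) : ∃ p : ℍ[ℝ], p ≠ 0 ∧ lam * p = -(p * lam) := by
  by_cases h : lam.imI = 0 ∧ lam.imJ = 0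
  · refine ⟨⟨0, 1, 0, 0⟩, ?_, ?_⟩
    · intro hh
      have := congrArg (fun q : ℍ[ℝ] => q.imI) hh
      simp at this
    · ext <;> simp [h.1, h.2, h0]
  · refine ⟨⟨0, lam.imJ, -lam.imI, 0⟩, ?_, ?_⟩
    · intro hh
      apply h
      have h1 := congrArg (fun q : ℍ[ℝ] => q.imI) hh
      have h2 := congrArg (fun q : ℍ[ℝ] => q.imJ) hh
      simp at h1 h2
      exact ⟨h2, h1⟩
    · ext <;> simp [h0] <;> ring

/-- The form is definite on the kernel of `C ^ 2 + |lam| ^ 2`. -/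
lemma ker_two (hG : Gᴴ = G) (hCG : Cᴴ * G = -(G * C)) (lam : ℍ[ℝ]) (h0 : lam.re = 0)
    (hlam : lam ≠ 0) (σ : ℝ)
    (hpos : ∀ u : ι → ℍ[ℝ], u ≠ 0 → C *ᵥ u = rs u lam → 0 < σ * (fm G u u).re)
    (u : ι → ℍ[ℝ]) (hu : u ≠ 0) (hCC : C *ᵥ (C *ᵥ u) = -(‖lam‖ ^ 2) • u) :
    0 < σ * (fm G u u).re := by
  have hn : ‖lam‖ ^ 2 ≠ 0 := by
    have := norm_pos_iff.2 hlam
    positivity
  have hll : lam * lam = ((-(‖lam‖ ^ 2) : ℝ) : ℍ[ℝ]) := by
    have h1 : star lam = - lam := by rw [Quaternion.star_eq_neg]; exact h0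
    have h2 := Quaternion.self_mul_star lam
    rw [h1, Quaternion.normSq_eq_norm_mul_self] at h2
    rw [Quaternion.coe_neg, pow_two, ← h2]
    simp
  set t : ℝ := (‖lam‖ ^ 2)⁻¹ with ht
  set Cu := C *ᵥ u with hCu
  set e : ι → ℍ[ℝ] := (1 / 2 : ℝ) • (u - t • rs Cu lam) with he
  set f : ι → ℍ[ℝ] := (1 / 2 : ℝ) • (u + t • rs Cu lam) with hf
  have hef : u = e + f := by
    rw [he, hf, ← smul_add]
    have : u - t • rs Cu lam + (u + t • rs Cu lam) = (2 : ℝ) • u := by
      rw [two_smul]; abel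
    rw [this, smul_smul]; norm_num
  have h1 : t * -(‖lam‖ ^ 2) = -1 := by rw [ht]; field_simp
  have h2 : rs (rs Cu lam) lam = (-(‖lam‖ ^ 2)) • Cu := by rw [rs_rs, hll, rs_coe]
  have hL : C *ᵥ (rs Cu lam) = (-(‖lam‖ ^ 2)) • rs u lam := by rw [mulVec_rs, hCC, rs_smul]
  have hCe : C *ᵥ e = rs e lam := by
    rw [he, Matrix.mulVec_smul, Matrix.mulVec_sub, Matrix.mulVec_smul, hL, rs_smul (1 / 2),
      rs_sub, rs_smul t, h2, smul_smul t, smul_smul t, h1]
    congr 1
    rw [neg_smul, neg_smul, one_smul, one_smul, ← hCu]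
    abel
  have hCf : C *ᵥ f = rs f (-lam) := by
    rw [hf, Matrix.mulVec_smul, Matrix.mulVec_add, Matrix.mulVec_smul, hL, rs_neg,
      rs_smul (1 / 2), rs_add, rs_smul t, h2, smul_smul t, smul_smul t, h1, ← smul_neg]
    congr 1
    rw [neg_smul, neg_smul, one_smul, one_smul, ← hCu]
    abel
  -- the mixed terms
  have hmix : (fm G e f).re = 0 := by
    have h1 := fm_C hCG e f
    rw [hCe, hCf, fm_rs_left, fm_rs_right] at h1
    have h2 : star lam = - lam := by rw [Quaternion.star_eq_neg]; exact h0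
    rw [h2] at h1
    -- `- lam z = - (z (-lam))`
    set z := fm G e f with hz
    have h3 : lam * z = - (z * lam) := by
      have : -lam * z = -(z * -lam) := h1
      rw [neg_mul, mul_neg, neg_neg] at this
      rw [← this, neg_neg]
    have h4 : lam * z * lam = ((‖lam‖ ^ 2 : ℝ) : ℍ[ℝ]) * z := by
      rw [h3, neg_mul, mul_assoc, hll, Quaternion.mul_coe_eq_smul, Quaternion.coe_mul_eq_smul,
        neg_smul, neg_neg]
    have h5 : (lam * z * lam).re = -(‖lam‖ ^ 2) * z.re := by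
      rw [re_comm, ← mul_assoc, hll, Quaternion.coe_mul_eq_smul, Quaternion.re_smul, smul_eq_mul]
    rw [h4, Quaternion.coe_mul_eq_smul, Quaternion.re_smul, smul_eq_mul] at h5
    have h6 : ‖lam‖ ^ 2 * z.re = 0 := by linarith
    rcases mul_eq_zero.1 h6 with h | h
    · exact absurd h hn
    · exact h
  have hmix' : (fm G f e).re = 0 := by
    have h1 := fm_star G e f
    rw [hG] at h1
    rw [← h1, Quaternion.re_star]; exact hmix
  have hval : (fm G u u).re = (fm G e e).re + (fm G f f).re := by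
    rw [hef]
    simp only [fm_add_left, fm_add_right, Quaternion.re_add]
    rw [hmix, hmix']; ring
  obtain ⟨p, hp0, hp⟩ := exists_anti lam h0
  have hfpos : f ≠ 0 → 0 < σ * (fm G f f).re := by
    intro hf0
    have h1 : rs f p ≠ 0 := by
      intro h
      apply hf0
      funext i
      have := congrFun h i
      simp only [rs, Pi.zero_apply, mul_eq_zero, hp0, or_false] at this
      exact this
    have h2 : C *ᵥ (rs f p) = rs (rs f p) lam := by
      rw [mulVec_rs, hCf, rs_rs, rs_rs, neg_mul, hp, neg_neg]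
    have h3 := hpos _ h1 h2
    rw [fm_rs_left, fm_rs_right, re_comm, mul_assoc, Quaternion.self_mul_star,
      Quaternion.mul_coe_eq_smul, Quaternion.re_smul, smul_eq_mul] at h3
    have h4 : 0 < Quaternion.normSq p := by
      rw [Quaternion.normSq_eq_norm_mul_self]
      have := norm_pos_iff.2 hp0
      positivity
    have h5 : σ * (Quaternion.normSq p * (fm G f f).re)
        = Quaternion.normSq p * (σ * (fm G f f).re) := by ring
    rw [h5] at h3
    exact (mul_pos_iff_of_pos_left h4).1 h3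
  have hfnn : 0 ≤ σ * (fm G f f).re := by
    by_cases hf0 : f = 0
    · rw [hf0, fm_zero_right]; simp
    · exact (hfpos hf0).le
  rw [hval, mul_add]
  by_cases he0 : e = 0
  · have hf0 : f ≠ 0 := by
      intro h
      apply hu
      rw [hef, he0, h, add_zero]
    rw [he0, fm_zero_right]
    simpa using hfpos hf0
  · have := hpos e he0 hCe
    linarith

end defn

/-- **Theorem.** If the system is stably bounded, then every root subspace of the companion matrix
`C` is `G`-positive or `G`-negative. -/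
theorem result (ℓ n : ℕ) (hℓ : 1 ≤ ℓ) (A : ℕ → Matrix (Fin n) (Fin n) ℍ[ℝ])
    (hA : Admissible ℓ A) (hs : IsStablyBounded ℓ A) (lam : ℍ[ℝ])
    (hlam : IsEigenvalue (companion ℓ A) lam) :
    GPositive (gram ℓ A) (rootSubspace (ℓ * n) (companion ℓ A) lam) ∨
      GNegative (gram ℓ A) (rootSubspace (ℓ * n) (companion ℓ A) lam) := by
  obtain ⟨m, rfl⟩ : ∃ m, ℓ = m + 1 := ⟨ℓ - 1, by omega⟩
  set C := companion (m + 1) A with hC
  set G := gram (m + 1) A with hGdef
  have hG : Gᴴ = G := gram_herm hA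
  have hCG : Cᴴ * G = -(G * C) := companion_gram m hA
  -- the eigenvalue is purely imaginary
  have hx0 : ∀ (u : Fin (m + 1) × Fin n → ℍ[ℝ]) (mu : ℍ[ℝ]), u ≠ 0 → C *ᵥ u = rs u mu →
      (fun b => u (0, b)) ≠ 0 := by
    intro u mu hu0 hu h
    apply hu0
    funext p
    rw [(eig_struct m hA.inv u mu hu).1 p, show u (0, p.2) = 0 from congrFun h p.2, zero_mul]
    rfl
  have hre : lam.re = 0 := by
    by_contra hcc
    obtain ⟨u, hu0, hu⟩ := hlam
    have h1 := eig_struct m hA.inv u lam hu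
    obtain ⟨ε, hε, hst⟩ := hs
    refine sol_unbounded (m + 1) A (fun b => u (0, b)) lam (hx0 u lam hu0 hu) hcc h1.2
      (hst A hA fun k _ i j => ?_)
    rw [sub_self, norm_zero]; exact hε
  -- no neutral eigenvectors
  have hne : ∀ u : Fin (m + 1) × Fin n → ℍ[ℝ], u ≠ 0 → C *ᵥ u = rs u lam →
      (fm G u u).re ≠ 0 := by
    intro u hu0 hu h
    have h1 := eig_struct m hA.inv u lam hu
    refine perturb (m + 1) hℓ hA hs (fun b => u (0, b)) (hx0 u lam hu0 hu) lam hre h1.2 ?_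
    rw [← form_eig (m + 1) A (fun b => u (0, b)) lam hre u h1.1]
    exact h
  obtain ⟨σ, hσ, hpos⟩ := sign_eig lam hne
  -- definiteness on the root subspace
  have key : ∀ u ∈ rootSubspace ((m + 1) * n) C lam, u ≠ 0 → 0 < σ * (fm G u u).re := by
    intro u hu hu0
    by_cases him : lam.im = 0
    · have hl0 : lam = 0 := by
        have h1 : lam = ((lam.re : ℝ) : ℍ[ℝ]) + lam.im := (Quaternion.re_add_im lam).symm
        rw [h1, hre, him]; simp
      have h1 := hu.1 him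
      rw [hre, zero_smul, sub_zero] at h1
      have h2 : ∀ v : Fin (m + 1) × Fin n → ℍ[ℝ], v ≠ 0 → C *ᵥ v = 0 →
          0 < σ * (fm G v v).re := by
        intro v hv0 hv
        refine hpos v hv0 ?_
        rw [hv, hl0]
        funext p; simp [rs]
      have h3 := ker_pow C (-1) σ (fun u v => by rw [fm_C hCG, neg_smul, one_smul]) h2 _ u h1
      exact h2 u hu0 h3
    · have hl0 : lam ≠ 0 := by
        rintro rfl
        exact him (by simp)
      have h1 := hu.2 him
      rw [hre, mul_zero, zero_smul, sub_zero] at h1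
      set T := C ^ 2 + (‖lam‖ ^ 2) • (1 : Matrix (Fin (m + 1) × Fin n) (Fin (m + 1) × Fin n) ℍ[ℝ])
        with hT
      have hTv : ∀ v, T *ᵥ v = C *ᵥ (C *ᵥ v) + (‖lam‖ ^ 2) • v := by
        intro v
        rw [hT, Matrix.add_mulVec, pow_two C, ← Matrix.mulVec_mulVec, Matrix.smul_mulVec,
          Matrix.one_mulVec]
      have h2 : ∀ v : Fin (m + 1) × Fin n → ℍ[ℝ], v ≠ 0 → T *ᵥ v = 0 →
          0 < σ * (fm G v v).re := by
        intro v hv0 hv
        refine ker_two hG hCG lam hre hl0 σ hpos v hv0 ?_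
        rw [hTv] at hv
        rw [eq_neg_of_add_eq_zero_left hv, neg_smul]
      have h3 := ker_pow T 1 σ (fun u v => by
        rw [hTv, hTv, fm_add_left, fm_add_right, fm_smul_left, fm_smul_right, fm_C hCG, fm_C hCG,
          neg_neg, one_smul]) h2 _ u h1
      exact h2 u hu0 h3
  rcases hσ with rfl | rfl
  · left
    intro u hu hu0
    have h1 := key u hu hu0
    rw [one_mul] at h1
    exact ⟨_, h1, fm_real hG u⟩
  · right
    intro u hu hu0
    have h1 := key u hu hu0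
    rw [neg_one_mul, neg_pos] at h1
    exact ⟨_, h1, fm_real hG u⟩

end Pool.Agent.Results.MP_9437d9_an.StablyBounded
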